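import Pool.Agent.K3h5.IB.Stm

/-!
# Iterated biased random walks: the exact formula for the hitting times (brick CNT, helper16)
-/

set_option autoImplicit false

open MeasureTheory Filter Topology

namespace Pool.Agent.K3h16.IB

open Pool.Agent.K3h5.IB

variable {d : ℕ}

lemma visits_union (y : ℕ → V d) (A B : Set (V d)) (T : ℕ) (h : ∀ v, v ∈ A → v ∉ B) :
    visits y (A ∪ B) T = visits y A T + visits y B T := by
  classical
  unfold visits
  rw [← Finset.card_union_of_disjoint]
  · congr 1
    ext n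
    simp only [Finset.mem_filter, Finset.mem_union, Set.mem_union]
    tauto
  · rw [Finset.disjoint_left]
    intro n h1 h2
    exact h _ (Finset.mem_filter.1 h1).2 (Finset.mem_filter.1 h2).2

lemma visits_all (y : ℕ → V d) (A : Set (V d)) (T : ℕ) (h : ∀ n < T, y n ∈ A) :
    visits y A T = T := by
  classical
  unfold visits
  rw [Finset.filter_true_of_mem (fun n hn => h n (Finset.mem_range.1 hn)), Finset.card_range]

theorem t_CNT : S_ROUTE → S_FAIR → S_CUTG → S_NICE → S_CROSS → S_IND → S_CONSY → S_CNT := by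
  intro _ _ hCUTG _ hCROSS hIND hCONSY d δ x hG m
  obtain ⟨-, -, hC1, hmono, hcut, -, hsh⟩ := hCUTG d δ x hG
  obtain ⟨-, hnice⟩ := hIND d δ x hG
  obtain ⟨-, -, hedge, -, hcr⟩ := hCROSS d δ x hG _ hnice 0 (YY x) rfl
  obtain ⟨-, -, ⟨n₀, hn₀, hn₀'⟩, -⟩ := hcr _ (hcut m)
  set T := hit δ x m with hT
  have hTn : T ≤ n₀ := Nat.sInf_le hn₀
  -- all the vertices visited before the time `T` are in the left part
  have hleft : ∀ n < T, YY x n ∈ {v | ∃ k ≤ ct δ x m, path0 x k = v} := by
    intro n hn
    obtain ⟨e, he, -⟩ := hedge n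
    obtain ⟨-, h2, -⟩ := hC1 _ (hcut m)
    exact h2 _ e (hnice.sub he) (hn₀' n (by omega))
  have hind : ∀ m' : ℕ, visits (YY x) {v | ∃ k ≤ ct δ x m', path0 x k = v} T =
      visits (YY x) {v | ∃ k ≤ ct δ x 0, path0 x k = v} T +
        ∑ j ∈ Finset.range m', visits (YY x) (block x (ct δ x j) (ct δ x (j + 1))) T := by
    intro m'
    induction m' with
    | zero => simp
    | succ j ih =>
      rw [Finset.sum_range_succ, ← add_assoc, ← ih, ← visits_union]
      · congr 1
        ext v
        simp only [block, Set.mem_ofPred_eq, Set.mem_union]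
        constructor
        · rintro ⟨k, hk, rfl⟩
          rcases Nat.lt_or_ge (ct δ x j) k with h | h
          · exact Or.inr ⟨k, h, hk, rfl⟩
          · exact Or.inl ⟨k, h, rfl⟩
        · rintro (⟨k, hk, rfl⟩ | ⟨k, -, hk, rfl⟩)
          · exact ⟨k, hk.trans (hmono (Nat.lt_succ_self j)).le, rfl⟩
          · exact ⟨k, hk, rfl⟩
      · rintro v ⟨k, hk, rfl⟩ ⟨k', hk', -, h⟩
        have h1 := (hcut j).1 k hk
        have h2 := (hcut j).2 k' hk'
        rw [h] at h2
        exact absurd h1 (not_le.2 h2)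
  have hall := visits_all (YY x) _ T hleft
  rw [hind m] at hall
  have hlast : ∀ j ∈ Finset.range m, visits (YY x) (block x (ct δ x j) (ct δ x (j + 1))) T =
      LK δ (sh (ct δ x j) x) (m - j) := by
    intro j hj
    rw [Finset.mem_range] at hj
    have h1 := hCONSY d δ x hG _ (hcut j) (ct δ x m) (hmono hj) (hcut m) 0
      (ct δ (sh (ct δ x j) x) 1)
    have h2 : ct δ (sh (ct δ x j) x) (m - j) + ct δ x j = ct δ x m := by
      rw [hsh]
      congr 1
      omega
    have h3 : ct δ x j + ct δ (sh (ct δ x j) x) 1 = ct δ x (j + 1) := by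
      rw [add_comm, hsh]
    have h4 : ct δ x m - ct δ x j = ct δ (sh (ct δ x j) x) (m - j) := by omega
    rw [add_zero, h3, h4] at h1
    exact h1
  rw [Finset.sum_congr rfl hlast] at hall
  exact hall.symm

end Pool.Agent.K3h16.IB
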